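import Pool.Agent.Helper100.PalWidthMain

set_option autoImplicit false

/-!
# Palindromic width of finitely generated soluble groups (MP_b0f829_al): partial results
-/

namespace Pool.Agent.Results.MP_b0f829_al.TwoPart

open Subgroup
open scoped commutatorElement

/-- `g` is a product of at most `N` palindromes in the letters `S` and their inverses. -/
def PalProd {G : Type} [Group G] (S : Finset G) (N : ℕ) (g : G) : Prop :=
  ∃ ps : List (List G), ps.length ≤ N ∧
    (∀ w ∈ ps, (∀ x ∈ w, x ∈ S ∨ x⁻¹ ∈ S) ∧ w.reverse = w) ∧ (ps.map List.prod).prod = g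

/-- `G` has finite palindromic width with respect to every finite generating set. -/
def FinitePalWidth (G : Type) [Group G] : Prop :=
  ∀ S : Finset G, Subgroup.closure (S : Set G) = ⊤ → ∃ N : ℕ, ∀ g : G, PalProd S N g

/-- (1) Every solvable group `G` such that all elements of the third derived group have odd order
has finite palindromic width with respect to every finite generating set.

(2) The same if for every `i ≥ 3` the abelian group `G⁽ⁱ⁾ / [G⁽ⁱ⁾, G]` is `2`-divisible.

(3) If `G⁽ʲ⁺³⁾ = 1`, then for every finite generating set all `2 ^ j`-th powers are products of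
boundedly many palindromes.

(4) A solvable group of finite commutator width has finite palindromic width with respect to every
finite generating set.

(5) The question (for all solvable groups of derived length at least `4`) is equivalent to the
question for the groups whose derived series has as its last nontrivial term a central subgroup
`G⁽ᵈ⁾`, `d ≥ 3`, of exponent `2`. -/
theorem result :
    (∀ (G : Type) [Group G], IsSolvable G → (∀ g ∈ derivedSeries G 3, Odd (orderOf g)) →
      FinitePalWidth G) ∧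
    (∀ (G : Type) [Group G], IsSolvable G →
      (∀ i, 3 ≤ i → ∀ g ∈ derivedSeries G i, ∃ h ∈ derivedSeries G i,
        (h ^ 2)⁻¹ * g ∈ ⁅derivedSeries G i, (⊤ : Subgroup G)⁆) → FinitePalWidth G) ∧
    (∀ (G : Type) [Group G] (j : ℕ), derivedSeries G (j + 3) = ⊥ →
      ∀ S : Finset G, Subgroup.closure (S : Set G) = ⊤ →
        ∃ N : ℕ, ∀ g : G, PalProd S N (g ^ (2 ^ j))) ∧
    (∀ (G : Type) [Group G], IsSolvable G →
      (∃ M : ℕ, ∀ g ∈ derivedSeries G 1, ∃ a b : Fin M → G,
        g = (List.ofFn (fun i => a i * b i * (a i)⁻¹ * (b i)⁻¹)).prod) → FinitePalWidth G) ∧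
    ((∀ (G : Type) [Group G], IsSolvable G → derivedSeries G 3 ≠ ⊥ → FinitePalWidth G) ↔
      (∀ (G : Type) [Group G], (∃ d, 3 ≤ d ∧ derivedSeries G (d + 1) = ⊥ ∧
        derivedSeries G d ≠ ⊥ ∧ ∀ z ∈ derivedSeries G d, z ^ 2 = 1 ∧ z ∈ Subgroup.center G) →
          FinitePalWidth G)) := by
  refine ⟨?_, ?_, ?_, ?_, ?_, ?_⟩
  · intro G _ hG hodd
    refine Pool.Agent.Helper100.PalWidth.fin_divisible G hG (fun i hi g hg => ?_)
    obtain ⟨c, hc⟩ := hodd g (derivedSeries_antitone G hi hg)
    refine ⟨g ^ (c + 1), pow_mem hg _, ?_⟩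
    have h2 : (g ^ (c + 1)) ^ 2 = g := by
      rw [← pow_mul]
      have : (c + 1) * 2 = orderOf g + 1 := by omega
      rw [this, pow_succ, pow_orderOf_eq_one, one_mul]
    rw [h2, inv_mul_cancel]
    exact one_mem _
  · intro G _ hG hyp
    exact Pool.Agent.Helper100.PalWidth.fin_divisible G hG hyp
  · intro G _ j hj S hS
    obtain ⟨k, x, hx, hxS⟩ := Pool.Agent.Helper100.PalWidth.enum S hS
    obtain ⟨n, hn⟩ := Pool.Agent.Helper100.PalWidth.pw_pow hS x hx hxS j
    refine ⟨n, fun g => ?_⟩
    obtain ⟨w, hw, hw'⟩ := hn g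
    rw [hj, mem_bot, inv_mul_eq_one] at hw'
    rw [← hw']
    exact hw
  · rintro G _ hG ⟨M, hM⟩
    refine Pool.Agent.Helper100.PalWidth.fin_comm G hG M (fun g hg => ?_)
    obtain ⟨a, b, rfl⟩ := hM g hg
    exact Pool.Agent.Helper354.CWidth.PC.fromFn a b
  · rintro H G _ ⟨d, hd, h1, h2, _⟩
    refine H G ⟨⟨d + 1, h1⟩⟩ (fun h3 => h2 ?_)
    rw [eq_bot_iff, ← h3]
    exact derivedSeries_antitone G hd
  · intro H G _ hG _
    exact Pool.Agent.Helper100.PalWidth.fin_reduction (fun G _ h => H G h) G hG

end Pool.Agent.Results.MP_b0f829_al.TwoPart
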